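import Pool.Agent.Lib.MP_c497bd_nt.PJ.Poly

/-!
# MP_c497bd, polynomial Jacobsthal bound
-/

namespace Pool.Agent.C497

/-- Among any `(|S| + 2) ^ A` consecutive integers there is one which is in neither of two given
classes modulo each `q ∈ S`.

Proof. Choose `i₀ < 6` which is not hit by `2` and by `3` if these are in `S` (classes modulo
`2` and `3` are left, because the two classes modulo `2` agree; Chinese remainder theorem). For
`i = i₀ + 6 j` the conditions modulo the primes `q ≥ 5` of `S` are of the same kind for `j`: `j`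
must avoid two classes `r' q`, `s' q` modulo `q` (`6` is invertible modulo `q`). So `poly_five`
applies to `j < N' = (N - i₀ + 5) / 6`; take the new exponent `A' = A + 6`, which satisfies
`6 ((w + 2) ^ A + 2) ≤ (w + 2) ^ A'`. -/
theorem exists_avoid_poly : ∃ A : ℕ, 1 ≤ A ∧ ∀ (S : Finset ℕ) (r s : ℕ → ℤ) (N : ℕ),
    (∀ q ∈ S, q.Prime) → (2 ∈ S → (2 : ℤ) ∣ r 2 - s 2) → (S.card + 2) ^ A ≤ N →
    ∃ i : ℕ, i < N ∧ ∀ q ∈ S, ¬ (q : ℤ) ∣ ((i : ℤ) - r q) ∧ ¬ (q : ℤ) ∣ ((i : ℤ) - s q) := by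
  obtain ⟨A, hA⟩ := poly_five
  refine ⟨A + 6, by omega, fun S r s N hS h2 hN => ?_⟩
  obtain ⟨b, hb1, hb2⟩ : ∃ b : ℤ, ¬ 3 ∣ b - r 3 ∧ ¬ 3 ∣ b - s 3 := by
    by_contra hcon
    push Not at hcon
    have e0 := hcon 0
    have e1 := hcon 1
    have e2 := hcon 2
    omega
  obtain ⟨i₀, hi6, hi⟩ : ∃ i₀ : ℕ, i₀ < 6 ∧ (i₀ : ℤ) = (3 * (r 2 + 1) + 4 * b) % 6 :=
    ⟨((3 * (r 2 + 1) + 4 * b) % 6).toNat, by omega, by omega⟩
  -- the primes at least five
  set S' : Finset ℕ := S.filter fun q => 5 ≤ q with hS'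
  obtain ⟨j, hj, hjq⟩ := hA S' (fun q => Nat.gcdA 6 q * (r q - i₀))
    (fun q => Nat.gcdA 6 q * (s q - i₀)) ((S'.card + 2) ^ A)
    (fun q hq => ⟨hS q (Finset.mem_filter.1 hq).1, (Finset.mem_filter.1 hq).2⟩) le_rfl
  have hcard : S'.card ≤ S.card := Finset.card_filter_le _ _
  have hpow : (S'.card + 2) ^ A ≤ (S.card + 2) ^ A := Nat.pow_le_pow_left (by omega) A
  have h64 : 2 ^ 6 ≤ (S.card + 2) ^ 6 := Nat.pow_le_pow_left (by omega) 6
  have hbig : 64 * (S.card + 2) ^ A ≤ N := by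
    refine le_trans ?_ hN
    rw [pow_add, mul_comm]
    exact Nat.mul_le_mul_left _ h64
  refine ⟨i₀ + 6 * j, by omega, fun q hq => ?_⟩
  have hqp := hS q hq
  -- the key step for large primes
  have key : 5 ≤ q → ∀ c : ℤ, (q : ℤ) ∣ ((i₀ + 6 * j : ℕ) : ℤ) - c →
      (q : ℤ) ∣ (j : ℤ) - Nat.gcdA 6 q * (c - i₀) := by
    intro h5 c hc
    have hcop : Nat.gcd 6 q = 1 := by
      have h := (Nat.coprime_primes Nat.prime_two hqp).2 (by omega)
      have h' := (Nat.coprime_primes Nat.prime_three hqp).2 (by omega)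
      exact Nat.Coprime.mul_left h h'
    have hab := Nat.gcd_eq_gcd_ab 6 q
    rw [hcop] at hab
    obtain ⟨k, hk⟩ := hc
    refine ⟨Nat.gcdA 6 q * k + Nat.gcdB 6 q * j, ?_⟩
    push_cast at hk hab ⊢
    linear_combination (j : ℤ) * hab + Nat.gcdA 6 q * hk
  rcases lt_or_ge q 5 with h5 | h5
  · have hq23 : q = 2 ∨ q = 3 := by
      interval_cases q
      · exact absurd hqp Nat.not_prime_zero
      · exact absurd hqp Nat.not_prime_one
      · exact Or.inl rfl
      · exact Or.inr rfl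
      · exact absurd hqp (by norm_num)
    rcases hq23 with rfl | rfl
    · have h3 := h2 hq
      push_cast
      constructor <;> omega
    · push_cast
      constructor <;> omega
  · have hh := hjq q (Finset.mem_filter.2 ⟨hq, h5⟩)
    unfold Hit at hh
    rw [not_or] at hh
    exact ⟨fun h => hh.1 (key h5 (r q) h), fun h => hh.2 (key h5 (s q) h)⟩

end Pool.Agent.C497
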