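import Pool.Agent.Lib.MP_c497bd_nt.PJ.Defs
import Pool.Agent.Lib.MP_6396c4_an.PrimeCount

/-!
# MP_c497bd, polynomial Jacobsthal bound: the classes
-/

namespace Pool.Agent.C497

open MP6cc1fa

/-- `T q` -/
private noncomputable def TT (S : Finset ℕ) (q : ℕ) : ℝ :=
  ∑ p ∈ S.filter (fun p => q < p), (2 : ℝ) / p

private noncomputable def cl (S : Finset ℕ) (q : ℕ) : ℕ := ⌊2 * TT S q⌋₊

private lemma TT_nonneg (S : Finset ℕ) (q : ℕ) : 0 ≤ TT S q :=
  Finset.sum_nonneg fun _ _ => by positivity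

private lemma TT_le_total (S : Finset ℕ) (q : ℕ) : TT S q ≤ ∑ p ∈ S, (2 : ℝ) / p :=
  Finset.sum_le_sum_of_subset_of_nonneg (Finset.filter_subset _ _) fun _ _ _ => by positivity

private lemma cl_le (S : Finset ℕ) (q : ℕ) : (cl S q : ℝ) ≤ 2 * TT S q :=
  Nat.floor_le (by have := TT_nonneg S q; positivity)

private lemma lt_cl (S : Finset ℕ) (q : ℕ) : 2 * TT S q < (cl S q : ℝ) + 1 :=
  Nat.lt_floor_add_one _

private lemma mem_part' {S : Finset ℕ} {l q : ℕ} :
    q ∈ part (cl S) S l ↔ q ∈ S ∧ cl S q = l := by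
  unfold part
  rw [Finset.mem_filter]

/-- sum over a set of primes in an interval -/
private lemma sum_le_prI {S : Finset ℕ} {a : ℝ} {z : ℕ} (ha : 0 ≤ a)
    (hS : ∀ p ∈ S, p.Prime ∧ a < (p : ℝ) ∧ p ≤ z) :
    ∑ p ∈ S, (2 : ℝ) / p ≤ 2 * ∑ p ∈ Pool.Agent.MP6396c4.prI a z, (p : ℝ)⁻¹ := by
  rw [Finset.mul_sum]
  have h1 : ∀ p : ℕ, (2 : ℝ) / p = 2 * (p : ℝ)⁻¹ := fun p => div_eq_mul_inv _ _
  simp_rw [h1]
  refine Finset.sum_le_sum_of_subset_of_nonneg (fun p hp => ?_) fun _ _ _ => by positivity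
  obtain ⟨h2, h3, h4⟩ := hS p hp
  exact (Pool.Agent.MP6396c4.mem_prI (by positivity)).2 ⟨h2, h3, by exact_mod_cast h4⟩

/-- Proof. Let `T q = ∑_{p ∈ S, q < p} 2 / p` and `cls q = ⌊2 T q⌋₊`.
If `q₁ > … > q_r` are the elements of class `l`, then `T q_r < (l + 1) / 2`, `T q₁ ≥ l / 2` and
`∑ 2 / q_i = T q_r - T q₁ + 2 / q_r < 1 / 2 + 1 / 2`, because `q_r ≥ 5`.
Let `C₀` be the constant of `mertens_interval` (`Pool/Agent/Lib/MP_6396c4_an/PrimeCount.lean`). If
`q` is the maximal element of class `l`, then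
`l / 2 ≤ T q ≤ 2 (log (1 + log z) - log (1 + log q) + C₀)`, so
`1 + log q ≤ exp (2 C₀ - l / 4) (1 + log z)` (even with `exp C₀`), and class `l` is contained in
`[1, q]`, so `1 + 2 |class l| ≤ 3 q ≤ exp (2 + log q)`. Finally all classes are `< L` with
`L = ⌊2 ∑_{p ∈ S} 2 / p⌋₊ + 1 ≤ 4 (log (1 + log z) + C₀) + 1`. If class `l` is empty the third
claim says `0 ≤ …`. -/
theorem exists_classes : ∃ C : ℝ, 0 < C ∧ ∀ (z : ℕ) (S : Finset ℕ), 2 ≤ z →
    (∀ q ∈ S, q.Prime ∧ 5 ≤ q ∧ q ≤ z) →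
    ∃ (cls : ℕ → ℕ) (L : ℕ), (∀ q ∈ S, cls q < L) ∧
      (∀ l < L, ∑ q ∈ part cls S l, (2 : ℝ) / q ≤ 1) ∧
      (∀ l < L, Real.log (1 + 2 * ((part cls S l).card : ℝ)) ≤
        1 + C * Real.exp (-((l : ℝ) / 4)) * (1 + Real.log z)) ∧
      (L : ℝ) ≤ C * (1 + Real.log (1 + Real.log z)) := by
  obtain ⟨C₀, hC₀, hmer⟩ := Pool.Agent.MP6396c4.mertens_interval
  refine ⟨4 + 4 * C₀ + 2 * Real.exp C₀, by positivity, fun z S hz hS => ?_⟩
  have hz1 : (1 : ℝ) ≤ z := by exact_mod_cast (by omega : 1 ≤ z)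
  have hlz : 0 ≤ Real.log z := Real.log_nonneg hz1
  have hllz : 0 ≤ Real.log (1 + Real.log z) := Real.log_nonneg (by linarith)
  refine ⟨cl S, ⌊2 * ∑ p ∈ S, (2 : ℝ) / p⌋₊ + 1, fun q hq => ?_, fun l _ => ?_, fun l _ => ?_, ?_⟩
  · refine Nat.lt_succ_of_le (Nat.floor_le_floor ?_)
    have := TT_le_total S q
    linarith
  · -- the harmonic sums of the classes
    rcases (part (cl S) S l).eq_empty_or_nonempty with he | hne
    · rw [he]; simp
    obtain ⟨q₀, hq₀, hmin⟩ := Finset.exists_min_image _ (fun q => q) hne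
    obtain ⟨q₁, hq₁, hmax⟩ := Finset.exists_max_image _ (fun q => q) hne
    have h0 := mem_part'.1 hq₀
    have h1 := mem_part'.1 hq₁
    have hsplit : ∑ q ∈ part (cl S) S l, (2 : ℝ) / q =
        (2 : ℝ) / q₀ + ∑ q ∈ (part (cl S) S l).erase q₀, (2 : ℝ) / q :=
      (Finset.add_sum_erase _ _ hq₀).symm
    have hdis : Disjoint ((part (cl S) S l).erase q₀) (S.filter (fun p => q₁ < p)) := by
      rw [Finset.disjoint_left]
      intro q hq hq2
      have h3 := hmax q (Finset.mem_of_mem_erase hq)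
      have h4 := (Finset.mem_filter.1 hq2).2
      omega
    have hsub : (part (cl S) S l).erase q₀ ∪ S.filter (fun p => q₁ < p) ⊆
        S.filter (fun p => q₀ < p) := by
      intro q hq
      rcases Finset.mem_union.1 hq with hq | hq
      · have h3 := hmin q (Finset.mem_of_mem_erase hq)
        have h4 := Finset.ne_of_mem_erase hq
        exact Finset.mem_filter.2 ⟨(mem_part'.1 (Finset.mem_of_mem_erase hq)).1, by omega⟩
      · have h3 := hmin q₁ hq₁
        have h4 := Finset.mem_filter.1 hq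
        exact Finset.mem_filter.2 ⟨h4.1, by omega⟩
    have hle : ∑ q ∈ (part (cl S) S l).erase q₀, (2 : ℝ) / q + TT S q₁ ≤ TT S q₀ := by
      unfold TT
      rw [← Finset.sum_union hdis]
      exact Finset.sum_le_sum_of_subset_of_nonneg hsub fun _ _ _ => by positivity
    have h5 := lt_cl S q₀
    have h6 := cl_le S q₁
    rw [h0.2] at h5
    rw [h1.2] at h6
    have h7 : (2 : ℝ) / q₀ ≤ 2 / 5 := by
      have h8 : (5 : ℝ) ≤ q₀ := by exact_mod_cast (hS q₀ h0.1).2.1
      exact div_le_div_of_nonneg_left (by norm_num) (by norm_num) h8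
    rw [hsplit]
    linarith
  · -- the sizes of the classes
    rcases (part (cl S) S l).eq_empty_or_nonempty with he | hne
    · rw [he]
      have : 0 ≤ (4 + 4 * C₀ + 2 * Real.exp C₀) * Real.exp (-((l : ℝ) / 4)) *
          (1 + Real.log z) := by positivity
      simp only [Finset.card_empty, Nat.cast_zero, mul_zero, add_zero, Real.log_one]
      linarith
    obtain ⟨q, hq, hmax⟩ := Finset.exists_max_image _ (fun q => q) hne
    have h1 := mem_part'.1 hq
    obtain ⟨hqp, hq5, hqz⟩ := hS q h1.1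
    have hq1 : (5 : ℝ) ≤ q := by exact_mod_cast hq5
    have hqz' : (q : ℝ) ≤ z := by exact_mod_cast hqz
    have hlq : 0 ≤ Real.log q := Real.log_nonneg (by linarith)
    have hcard : (part (cl S) S l).card ≤ q := by
      have h2 : part (cl S) S l ⊆ Finset.Icc 1 q := by
        intro p hp
        have h3 := hmax p hp
        have h4 := hS p (mem_part'.1 hp).1
        exact Finset.mem_Icc.2 ⟨by omega, h3⟩
      calc (part (cl S) S l).card ≤ (Finset.Icc 1 q).card := Finset.card_le_card h2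
        _ = q := by simp
    have hT : TT S q ≤ 2 * (Real.log (1 + Real.log z) - Real.log (1 + Real.log q) + C₀) := by
      have h2 : TT S q ≤ 2 * ∑ p ∈ Pool.Agent.MP6396c4.prI (q : ℝ) z, (p : ℝ)⁻¹ := by
        unfold TT
        refine sum_le_prI (by positivity) fun p hp => ?_
        have h3 := Finset.mem_filter.1 hp
        have h4 := hS p h3.1
        exact ⟨h4.1, by exact_mod_cast h3.2, h4.2.2⟩
      have h3 := (hmer q z (by linarith) hqz').2
      linarith
    have h2 := cl_le S q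
    rw [h1.2] at h2
    have h3 : Real.log (1 + Real.log q) ≤ Real.log (1 + Real.log z) + (C₀ - (l : ℝ) / 4) := by
      linarith
    have h4 : 1 + Real.log q ≤ (1 + Real.log z) * (Real.exp C₀ * Real.exp (-((l : ℝ) / 4))) := by
      have h5 := Real.exp_le_exp.2 h3
      rw [Real.exp_log (by linarith), Real.exp_add, Real.exp_log (by linarith), sub_eq_add_neg,
        Real.exp_add] at h5
      exact h5
    have h5 : Real.log (1 + 2 * ((part (cl S) S l).card : ℝ)) ≤ Real.log 3 + Real.log q := by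
      rw [← Real.log_mul (by norm_num) (by linarith)]
      apply Real.log_le_log (by positivity)
      have h6 : ((part (cl S) S l).card : ℝ) ≤ q := by exact_mod_cast hcard
      linarith
    have h6 : Real.log 3 ≤ 2 := by
      have := Real.log_le_sub_one_of_pos (show (0 : ℝ) < 3 by norm_num)
      linarith
    have h7 : 0 ≤ (4 + 4 * C₀) * Real.exp (-((l : ℝ) / 4)) * (1 + Real.log z) := by positivity
    have h8 : (4 + 4 * C₀ + 2 * Real.exp C₀) * Real.exp (-((l : ℝ) / 4)) * (1 + Real.log z) =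
        (4 + 4 * C₀) * Real.exp (-((l : ℝ) / 4)) * (1 + Real.log z) +
        2 * ((1 + Real.log z) * (Real.exp C₀ * Real.exp (-((l : ℝ) / 4)))) := by ring
    rw [h8]
    linarith
  · -- the number of classes
    have h1 : ∑ p ∈ S, (2 : ℝ) / p ≤ 2 * ∑ p ∈ Pool.Agent.MP6396c4.prI 1 z, (p : ℝ)⁻¹ := by
      refine sum_le_prI (by norm_num) fun p hp => ?_
      have h4 := hS p hp
      exact ⟨h4.1, by exact_mod_cast (by omega : 1 < p), h4.2.2⟩
    have h2 := (hmer 1 z le_rfl hz1).2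
    rw [Real.log_one, add_zero, Real.log_one] at h2
    have h3 : ((⌊2 * ∑ p ∈ S, (2 : ℝ) / p⌋₊ : ℕ) : ℝ) ≤ 2 * ∑ p ∈ S, (2 : ℝ) / p :=
      Nat.floor_le (by
        have : 0 ≤ ∑ p ∈ S, (2 : ℝ) / p := Finset.sum_nonneg fun _ _ => by positivity
        linarith)
    push_cast
    have h4 : 1 ≤ Real.exp C₀ := Real.one_le_exp hC₀.le
    have h5 : 0 ≤ (4 * C₀ + 2 * Real.exp C₀) * Real.log (1 + Real.log z) := by positivity
    nlinarith

end Pool.Agent.C497
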