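import Pool.Agent.Lib.MP_c497bd_nt.PJ.Defs

/-!
# MP_c497bd, polynomial Jacobsthal bound: counting with all classes of `D`
-/

namespace Pool.Agent.C497

private theorem pj_base (N d : ℕ) (hd : 0 < d) (a : ℤ) :
    |(((Finset.range N).filter (fun i : ℕ => (d : ℤ) ∣ (i : ℤ) - a)).card : ℝ) - N / d| < 1 := by
  have hdz : (0 : ℤ) < d := by exact_mod_cast hd
  obtain ⟨v, hv⟩ : ∃ v : ℕ, (v : ℤ) = a % d :=
    ⟨(a % d).toNat, Int.toNat_of_nonneg (Int.emod_nonneg _ hdz.ne')⟩
  have e1 : (Finset.range N).filter (fun i : ℕ => (d : ℤ) ∣ (i : ℤ) - a)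
      = (Finset.range N).filter (fun i : ℕ => i ≡ v [MOD d]) := by
    apply Finset.filter_congr
    intro i _
    rw [← Int.natCast_modEq_iff, hv]
    constructor
    · intro h
      have h1 : a ≡ i [ZMOD d] := (Int.modEq_iff_dvd).2 h
      exact h1.symm.trans (Int.mod_modEq a d).symm
    · intro h
      have h1 : (i : ℤ) ≡ a [ZMOD d] := h.trans (Int.mod_modEq a d)
      exact (Int.modEq_iff_dvd).1 h1.symm
  rw [e1, ← Nat.count_eq_card_filter_range, Nat.count_modEq_card N hd v]
  have hdr : (0 : ℝ) < d := by exact_mod_cast hd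
  have h3 : (N : ℝ) = d * (N / d : ℕ) + (N % d : ℕ) := by
    exact_mod_cast (Nat.div_add_mod N d).symm
  have h4 : (N : ℝ) / d = (N / d : ℕ) + (N % d : ℕ) / (d : ℝ) := by
    rw [div_eq_iff hdr.ne', add_mul, div_mul_cancel₀ _ hdr.ne', mul_comm]
    exact h3
  have h5 : ((N % d : ℕ) : ℝ) / d < 1 := by
    rw [div_lt_one hdr]
    exact_mod_cast Nat.mod_lt N hd
  have h6 : 0 ≤ ((N % d : ℕ) : ℝ) / d := by positivity
  rw [h4, Nat.cast_add, add_sub_add_left_eq_sub]
  split_ifs with hlt
  · have h7 : 0 < ((N % d : ℕ) : ℝ) / d := by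
      apply div_pos _ hdr
      exact_mod_cast lt_of_le_of_lt (Nat.zero_le _) hlt
    rw [abs_lt, Nat.cast_one]
    constructor <;> linarith
  · rw [abs_lt, Nat.cast_zero]
    constructor <;> linarith


private theorem pj_crt (q d : ℕ) (hqd : Nat.Coprime q d) (a b : ℤ) :
    ∃ c : ℤ, ∀ i : ℤ, ((d * q : ℕ) : ℤ) ∣ i - c ↔ ((d : ℤ) ∣ i - a ∧ (q : ℤ) ∣ i - b) := by
  have h1 : IsCoprime (q : ℤ) (d : ℤ) := Nat.isCoprime_iff_coprime.2 hqd
  obtain ⟨u, v, huv⟩ := h1
  refine ⟨a * (u * q) + b * (v * d), fun i => ?_⟩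
  have ea : (d : ℤ) ∣ (a * (u * q) + b * (v * d)) - a :=
    ⟨(b - a) * v, by linear_combination a * huv⟩
  have eb : (q : ℤ) ∣ (a * (u * q) + b * (v * d)) - b :=
    ⟨(a - b) * u, by linear_combination b * huv⟩
  constructor
  · intro h
    have hd : (d : ℤ) ∣ i - (a * (u * q) + b * (v * d)) :=
      Dvd.dvd.trans ⟨(q : ℤ), by push_cast; ring⟩ h
    have hq : (q : ℤ) ∣ i - (a * (u * q) + b * (v * d)) :=
      Dvd.dvd.trans ⟨(d : ℤ), by push_cast; ring⟩ h
    constructor
    · have := dvd_add hd ea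
      rwa [sub_add_sub_cancel] at this
    · have := dvd_add hq eb
      rwa [sub_add_sub_cancel] at this
  · rintro ⟨hd, hq⟩
    have h2 : (d : ℤ) ∣ i - (a * (u * q) + b * (v * d)) := by
      have := dvd_sub hd ea
      rwa [sub_sub_sub_cancel_right] at this
    have h3 : (q : ℤ) ∣ i - (a * (u * q) + b * (v * d)) := by
      have := dvd_sub hq eb
      rwa [sub_sub_sub_cancel_right] at this
    have h4 : IsCoprime (d : ℤ) (q : ℤ) := Nat.isCoprime_iff_coprime.2 hqd.symm
    have := h4.mul_dvd h2 h3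
    rwa [Nat.cast_mul]


open Classical in
/-- the indices in a progression hit by all of `D` -/
private noncomputable def pjA (D : Finset ℕ) (r s : ℕ → ℤ) (N d : ℕ) (a : ℤ) : Finset ℕ :=
  (Finset.range N).filter (fun i : ℕ => (d : ℤ) ∣ (i : ℤ) - a ∧ ∀ q ∈ D, Hit r s q i)

private theorem pj_main (r s : ℕ → ℤ) (N : ℕ) (D : Finset ℕ) :
    (∀ q ∈ D, q.Prime) → ∀ (d : ℕ) (a : ℤ), 0 < d → (∀ q ∈ D, Nat.Coprime q d) →
    |((pjA D r s N d a).card : ℝ) - N / d * ∏ q ∈ D, (wt r s q / q)| ≤ 2 ^ D.card := by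
  classical
  induction D using Finset.induction_on with
  | empty =>
    intro _ d a hd _
    have h := pj_base N d hd a
    have e : pjA ∅ r s N d a = (Finset.range N).filter (fun i : ℕ => (d : ℤ) ∣ (i : ℤ) - a) := by
      unfold pjA
      apply Finset.filter_congr
      intro i _
      simp
    rw [e]
    simpa using h.le
  | insert q D hqD ih =>
    intro hP d a hd hcop
    have hP' : ∀ p ∈ D, p.Prime := fun p hp => hP p (Finset.mem_insert_of_mem hp)
    have hq : q.Prime := hP q (Finset.mem_insert_self q D)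
    have hcop' : ∀ p ∈ D, Nat.Coprime p d := fun p hp => hcop p (Finset.mem_insert_of_mem hp)
    have hqd : Nat.Coprime q d := hcop q (Finset.mem_insert_self q D)
    have hdq : 0 < d * q := Nat.mul_pos hd hq.pos
    have hcop2 : ∀ p ∈ D, Nat.Coprime p (d * q) := by
      intro p hp
      apply Nat.Coprime.mul_right (hcop' p hp)
      exact (Nat.coprime_primes (hP' p hp) hq).2 (fun h => hqD (h ▸ hp))
    obtain ⟨c₁, hc₁⟩ := pj_crt q d hqd a (r q)
    obtain ⟨c₂, hc₂⟩ := pj_crt q d hqd a (s q)
    have i1 := ih hP' (d * q) c₁ hdq hcop2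
    have i2 := ih hP' (d * q) c₂ hdq hcop2
    rw [Finset.prod_insert hqD, Finset.card_insert_of_notMem hqD, pow_succ]
    have hqr : (0 : ℝ) < q := by exact_mod_cast hq.pos
    have eNd : (N : ℝ) / ((d * q : ℕ) : ℝ) = N / d / q := by
      rw [Nat.cast_mul, div_div]
    rw [eNd] at i1 i2
    set P : ℝ := ∏ p ∈ D, (wt r s p / p) with hPdef
    have hpow : (0 : ℝ) < 2 ^ D.card := by positivity
    have hAe : pjA (insert q D) r s N d a
        = pjA D r s N (d * q) c₁ ∪ pjA D r s N (d * q) c₂ := by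
      ext i
      unfold pjA
      simp only [Finset.mem_filter, Finset.mem_union, Finset.mem_insert,
        forall_eq_or_imp, hc₁, hc₂]
      unfold Hit
      tauto
    by_cases hw : (q : ℤ) ∣ r q - s q
    · have hwv : wt r s q = 1 := if_pos hw
      have hsame : pjA D r s N (d * q) c₂ = pjA D r s N (d * q) c₁ := by
        unfold pjA
        apply Finset.filter_congr
        intro i _
        rw [hc₁, hc₂]
        have : (q : ℤ) ∣ (i : ℤ) - s q ↔ (q : ℤ) ∣ (i : ℤ) - r q := by
          constructor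
          · intro h
            have := dvd_sub h hw
            rwa [show (i : ℤ) - s q - (r q - s q) = i - r q by ring] at this
          · intro h
            have := dvd_add h hw
            rwa [show (i : ℤ) - r q + (r q - s q) = i - s q by ring] at this
        rw [this]
      rw [hAe, hsame, Finset.union_self, hwv]
      have e : (N : ℝ) / d * (1 / q * P) = N / d / q * P := by ring
      rw [e]
      linarith
    · have hwv : wt r s q = 2 := if_neg hw
      have hdis : Disjoint (pjA D r s N (d * q) c₁) (pjA D r s N (d * q) c₂) := by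
        rw [Finset.disjoint_left]
        intro i h1 h2
        unfold pjA at h1 h2
        rw [Finset.mem_filter] at h1 h2
        have g1 := ((hc₁ i).1 h1.2.1).2
        have g2 := ((hc₂ i).1 h2.2.1).2
        apply hw
        have := dvd_sub g2 g1
        rwa [show (i : ℤ) - s q - (i - r q) = r q - s q by ring] at this
      rw [hAe, Finset.card_union_of_disjoint hdis, hwv, Nat.cast_add]
      have e : (N : ℝ) / d * (2 / q * P) = N / d / q * P + N / d / q * P := by ring
      rw [e]
      rw [abs_le] at i1 i2 ⊢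
      constructor <;> linarith [i1.1, i1.2, i2.1, i2.2]

/-- The number of the `i < N` hit by all `q ∈ D` is `N ∏ (wt q / q)` up to `2 ^ |D|`.

Proof. Induction on `D` for the more general statement with a progression: for `0 < d` prime to all
`q ∈ D` and `a : ℤ`, the number of the `i < N` with `d ∣ i - a` hit by all `q ∈ D` is
`(N / d) ∏ (wt q / q)` up to `2 ^ |D|`. For `D = ∅` this is `|#{i < N : d ∣ i - a} - N / d| < 1`.
For a new prime `q`: `i` is hit by `q` and `d ∣ i - a` iff `d q ∣ i - c₁` or `d q ∣ i - c₂` (Chinese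
remainder theorem); the two sets agree if `q ∣ r q - s q` and are disjoint otherwise. The private
lemmas `sv_base`, `sv_crt`, `sv_main` of `Pool/Agent/Lib/MP_c497bd_nt/Sieve.lean` are the same
argument for the avoiding indices; copy what is useful. -/
theorem hit_count (r s : ℕ → ℤ) (N : ℕ) (D : Finset ℕ) (hD : ∀ q ∈ D, q.Prime) :
    |((hitAll r s D N).card : ℝ) - N * ∏ q ∈ D, (wt r s q / q)| ≤ 2 ^ D.card := by
  have h := pj_main r s N D hD 1 0 one_pos (fun q _ => Nat.coprime_one_right q)
  have e : pjA D r s N 1 0 = hitAll r s D N := by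
    ext i
    unfold pjA hitAll
    simp only [Finset.mem_filter, Nat.cast_one, one_dvd, true_and]
  rw [e, Nat.cast_one, div_one] at h
  exact h

end Pool.Agent.C497
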