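import Pool.Agent.Lib.MP_6cc1fa_pr.SM.SM5

/-!
# MP_c497bd, polynomial Jacobsthal bound: definitions
-/

namespace Pool.Agent.C497

/-- The number of the classes of `r q`, `s q` modulo `q`. -/
noncomputable def wt (r s : ℕ → ℤ) (q : ℕ) : ℝ := if (q : ℤ) ∣ r q - s q then 1 else 2

/-- `i` is in one of the two classes modulo `q`. -/
def Hit (r s : ℕ → ℤ) (q : ℕ) (i : ℤ) : Prop := (q : ℤ) ∣ i - r q ∨ (q : ℤ) ∣ i - s q

open Classical in
/-- The `i < N` hit by all `q ∈ D`. -/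
noncomputable def hitAll (r s : ℕ → ℤ) (D : Finset ℕ) (N : ℕ) : Finset ℕ :=
  (Finset.range N).filter fun i => ∀ q ∈ D, Hit r s q i

open Classical in
/-- The `i < N` hit by no `q ∈ S`. -/
noncomputable def free (r s : ℕ → ℤ) (S : Finset ℕ) (N : ℕ) : Finset ℕ :=
  (Finset.range N).filter fun i => ∀ q ∈ S, ¬ Hit r s q i

theorem wt_le (r s : ℕ → ℤ) (q : ℕ) : wt r s q ≤ 2 := by
  unfold wt; split_ifs <;> norm_num

theorem wt_nonneg (r s : ℕ → ℤ) (q : ℕ) : 0 ≤ wt r s q := by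
  unfold wt; split_ifs <;> norm_num

end Pool.Agent.C497
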