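import Pool.Agent.Lib.MP_c497bd_nt.PJ.Defs

/-!
# MP_c497bd, polynomial Jacobsthal bound: the error term of the sieve
-/

namespace Pool.Agent.C497

open MP6cc1fa

/-- `∑_{D ⊆ S, |D| ≤ t} 2 ^ |D| ≤ (1 + 2 |S|) ^ t`.

Proof. `∑_{j ≤ t} C(n, j) 2 ^ j ≤ ∑_{j ≤ t} C(t, j) (2 n) ^ j`, because `C(n, j) ≤ n ^ j`
(`Nat.choose_le_pow`) and `1 ≤ C(t, j)`; `Finset.sum_powerset_apply_card`,
`Finset.powersetCard`. -/
theorem sum_small (S : Finset ℕ) (t : ℕ) :
    ∑ D ∈ S.powerset, (if D.card ≤ t then (2 : ℝ) ^ D.card else 0) ≤ (1 + 2 * S.card) ^ t := by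
  induction S using Finset.induction_on generalizing t with
  | empty => simp
  | insert a S ha ih =>
    rw [Finset.sum_powerset_insert ha, Finset.card_insert_of_notMem ha]
    have h1 : ∀ D ∈ S.powerset, (if (insert a D).card ≤ t then (2 : ℝ) ^ (insert a D).card else 0) =
        if D.card + 1 ≤ t then (2 : ℝ) ^ (D.card + 1) else 0 := by
      intro D hD
      have haD : a ∉ D := fun h => ha (Finset.mem_powerset.1 hD h)
      rw [Finset.card_insert_of_notMem haD]
    rw [Finset.sum_congr rfl h1]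
    cases t with
    | zero =>
      have h2 := ih 0
      simp only [pow_zero] at h2 ⊢
      have h3 : ∑ D ∈ S.powerset, (if D.card + 1 ≤ 0 then (2 : ℝ) ^ (D.card + 1) else 0) = 0 :=
        Finset.sum_eq_zero fun D _ => if_neg (by omega)
      rw [h3, add_zero]
      exact h2
    | succ t =>
      have h2 := ih (t + 1)
      have h3 := ih t
      have h4 : ∑ D ∈ S.powerset, (if D.card + 1 ≤ t + 1 then (2 : ℝ) ^ (D.card + 1) else 0) =
          2 * ∑ D ∈ S.powerset, (if D.card ≤ t then (2 : ℝ) ^ D.card else 0) := by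
        rw [Finset.mul_sum]
        refine Finset.sum_congr rfl fun D _ => ?_
        by_cases h : D.card ≤ t
        · rw [if_pos (by omega), if_pos h, pow_succ]; ring
        · rw [if_neg (by omega), if_neg h, mul_zero]
      rw [h4]
      have h5 : (1 + 2 * (S.card : ℝ)) ^ t ≤ (1 + 2 * ((S.card + 1 : ℕ) : ℝ)) ^ t := by
        refine pow_le_pow_left₀ (by positivity) ?_ t
        push_cast
        linarith
      have h6 : (1 + 2 * ((S.card + 1 : ℕ) : ℝ)) ^ (t + 1) =
          (1 + 2 * (S.card : ℝ)) * (1 + 2 * ((S.card + 1 : ℕ) : ℝ)) ^ t +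
            2 * (1 + 2 * ((S.card + 1 : ℕ) : ℝ)) ^ t := by
        rw [pow_succ]
        push_cast
        ring
      rw [h6]
      have h7 : (1 + 2 * (S.card : ℝ)) ^ (t + 1) ≤
          (1 + 2 * (S.card : ℝ)) * (1 + 2 * ((S.card + 1 : ℕ) : ℝ)) ^ t := by
        rw [pow_succ, mul_comm]
        exact mul_le_mul_of_nonneg_left h5 (by positivity)
      linarith

private theorem abs_lamM_le (cls : ℕ → ℕ) (b : ℕ → ℕ) (L : ℕ) (D : Finset ℕ) :
    |lamM cls b L D| ≤
      ∏ l ∈ Finset.range L, (if (part cls D l).card ≤ 2 * b l + 1 then (1 : ℝ) else 0) := by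
  by_cases h : ∀ l < L, (part cls D l).card ≤ 2 * b l + 1
  · rw [Finset.prod_eq_one fun l hl => if_pos (h l (Finset.mem_range.1 hl))]
    unfold lamM
    split_ifs
    · rw [abs_pow, abs_neg, abs_one, one_pow]
    · rw [abs_zero]; exact zero_le_one
  · push Not at h
    obtain ⟨l, hl, hl'⟩ := h
    have h0 : lamM cls b L D = 0 := by
      unfold lamM
      rw [if_neg]
      rintro (h | ⟨k, hk, h1, h2⟩)
      · have := h l hl
        omega
      · by_cases hlk : l = k
        · subst hlk; omega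
        · have := h2 l hl hlk
          omega
    rw [h0, abs_zero]
    refine Finset.prod_nonneg fun l _ => ?_
    split_ifs <;> norm_num

/-- Proof. `|lamM cls b L D| ≤ ∏_{l < L} (if |part cls D l| ≤ 2 b_l + 1 then 1 else 0)`,
`2 ^ |D| = ∏_{l < L} 2 ^ |part cls D l|` (`sm5_fiber`), and `sm5_prod` (SM5.lean) turns the sum over
`D ⊆ S` of the product into the product over `l` of the sums over `D ⊆ part cls S l`; now
`sum_small`. -/
theorem err_bound (S : Finset ℕ) (cls : ℕ → ℕ) (b : ℕ → ℕ) (L : ℕ) (hc : ∀ q ∈ S, cls q < L) :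
    ∑ D ∈ S.powerset, |lamM cls b L D| * 2 ^ D.card ≤
      ∏ l ∈ Finset.range L, (1 + 2 * ((part cls S l).card : ℝ)) ^ (2 * b l + 1) := by
  have h1 : ∀ D ∈ S.powerset, |lamM cls b L D| * 2 ^ D.card ≤
      ∏ l ∈ Finset.range L, (fun (l : ℕ) (E : Finset ℕ) =>
        if E.card ≤ 2 * b l + 1 then (2 : ℝ) ^ E.card else 0) l (part cls D l) := by
    intro D hD
    have hD' : ∀ P ∈ D, cls P < L := fun P hP => hc P (Finset.mem_powerset.1 hD hP)
    have h2 : (2 : ℝ) ^ D.card = ∏ l ∈ Finset.range L, (2 : ℝ) ^ (part cls D l).card := by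
      have h3 := sm5_fiber cls L D hD' (fun _ => (2 : ℝ))
      simp only [Finset.prod_const] at h3
      exact h3.symm
    calc |lamM cls b L D| * 2 ^ D.card
        ≤ (∏ l ∈ Finset.range L, (if (part cls D l).card ≤ 2 * b l + 1 then (1 : ℝ) else 0)) *
            2 ^ D.card :=
          mul_le_mul_of_nonneg_right (abs_lamM_le cls b L D) (by positivity)
      _ = ∏ l ∈ Finset.range L, (fun (l : ℕ) (E : Finset ℕ) =>
            if E.card ≤ 2 * b l + 1 then (2 : ℝ) ^ E.card else 0) l (part cls D l) := by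
          rw [h2, ← Finset.prod_mul_distrib]
          refine Finset.prod_congr rfl fun l _ => ?_
          change _ = if (part cls D l).card ≤ 2 * b l + 1 then (2 : ℝ) ^ (part cls D l).card else 0
          split_ifs <;> simp
  refine (Finset.sum_le_sum h1).trans ?_
  refine (le_of_eq (sm5_prod cls L S hc (fun (l : ℕ) (E : Finset ℕ) =>
        if E.card ≤ 2 * b l + 1 then (2 : ℝ) ^ E.card else 0))).trans ?_
  refine Finset.prod_le_prod (fun l _ => ?_) fun l _ => sum_small _ _
  refine Finset.sum_nonneg fun E _ => ?_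
  change 0 ≤ if E.card ≤ 2 * b l + 1 then (2 : ℝ) ^ E.card else 0
  split_ifs
  · positivity
  · exact le_rfl

end Pool.Agent.C497
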