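import Pool.Agent.Lib.MP_c497bd_nt.PJ.Cnt

/-!
# MP_c497bd, polynomial Jacobsthal bound: the lower bound sieve and its error term
-/

namespace Pool.Agent.C497

open MP6cc1fa

/-- The lower bound sieve.

Proof. For `i < N` let `Q i ⊆ S` be the set of the `q ∈ S` with `Hit r s q i`. By `lamM_le`
(SM5.lean) the indicator of `Q i = ∅` is at least `∑_{D ⊆ Q i} lamM cls b L D`. Sum over `i < N` and
exchange the sums: `∑_{D ⊆ S} lamM cls b L D * |hitAll r s D N|`; now use `hit_count`. -/
theorem sieve_lower (r s : ℕ → ℤ) (N : ℕ) (S : Finset ℕ) (hS : ∀ q ∈ S, q.Prime) (cls : ℕ → ℕ)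
    (b : ℕ → ℕ) (L : ℕ) (hc : ∀ q ∈ S, cls q < L) :
    N * ∑ D ∈ S.powerset, lamM cls b L D * ∏ q ∈ D, (wt r s q / q) -
      ∑ D ∈ S.powerset, |lamM cls b L D| * 2 ^ D.card ≤ ((free r s S N).card : ℝ) := by
  classical
  set Q : ℕ → Finset ℕ := fun i => S.filter fun q => Hit r s q (i : ℤ) with hQ
  have h1 : ((free r s S N).card : ℝ) =
      ∑ i ∈ Finset.range N, if Q i = ∅ then (1 : ℝ) else 0 := by
    rw [← Finset.sum_filter, Finset.sum_const, nsmul_eq_mul, mul_one]
    congr 2
    unfold free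
    ext i
    simp only [Finset.mem_filter, Finset.mem_range, hQ, Finset.filter_eq_empty_iff]
  have h2 : ∑ i ∈ Finset.range N, ∑ D ∈ (Q i).powerset, lamM cls b L D ≤
      ((free r s S N).card : ℝ) := by
    rw [h1]
    refine Finset.sum_le_sum fun i _ => ?_
    have h := lamM_le cls b L (Q i) (fun q hq => hc q (Finset.mem_filter.1 hq).1)
    refine h.trans (le_of_eq ?_)
    split_ifs <;> rfl
  have h3 : ∑ i ∈ Finset.range N, ∑ D ∈ (Q i).powerset, lamM cls b L D =
      ∑ D ∈ S.powerset, lamM cls b L D * ((hitAll r s D N).card : ℝ) := by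
    have h4 : ∀ i ∈ Finset.range N, ∑ D ∈ (Q i).powerset, lamM cls b L D =
        ∑ D ∈ S.powerset, if (∀ q ∈ D, Hit r s q (i : ℤ)) then lamM cls b L D else 0 := by
      intro i _
      rw [← Finset.sum_filter]
      refine Finset.sum_congr ?_ fun _ _ => rfl
      ext D
      simp only [Finset.mem_powerset, Finset.mem_filter, hQ]
      constructor
      · intro h
        exact ⟨fun q hq => (Finset.mem_filter.1 (h hq)).1,
          fun q hq => (Finset.mem_filter.1 (h hq)).2⟩
      · rintro ⟨h, h'⟩ q hq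
        exact Finset.mem_filter.2 ⟨h hq, h' q hq⟩
    rw [Finset.sum_congr rfl h4, Finset.sum_comm]
    refine Finset.sum_congr rfl fun D _ => ?_
    rw [← Finset.sum_filter, Finset.sum_const, nsmul_eq_mul, mul_comm]
    congr 2
  rw [h3] at h2
  refine le_trans ?_ h2
  rw [Finset.mul_sum, ← Finset.sum_sub_distrib]
  refine Finset.sum_le_sum fun D hD => ?_
  have h5 := hit_count r s N D (fun q hq => hS q (Finset.mem_powerset.1 hD hq))
  have h6 : |lamM cls b L D * (((hitAll r s D N).card : ℝ) - N * ∏ q ∈ D, (wt r s q / q))| ≤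
      |lamM cls b L D| * 2 ^ D.card := by
    rw [abs_mul]
    exact mul_le_mul_of_nonneg_left h5 (abs_nonneg _)
  have h7 := (abs_le.1 h6).1
  have h8 : lamM cls b L D * (((hitAll r s D N).card : ℝ) - N * ∏ q ∈ D, (wt r s q / q)) =
      lamM cls b L D * ((hitAll r s D N).card : ℝ) -
        N * (lamM cls b L D * ∏ q ∈ D, (wt r s q / q)) := by ring
  rw [h8] at h7
  linarith

end Pool.Agent.C497
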