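import Mathlib

/-!
# MP_c497bd, polynomial Jacobsthal bound: two sums
-/

namespace Pool.Agent.C497

/-- Proof. `(2 l + 5) exp (-l / 4)` is summable; e.g. compare with
`exp (-l / 8) * max ((2 l + 5) exp (-l / 8))`, using `x ≤ exp x`. -/
theorem sum_decay : ∃ C : ℝ, 0 < C ∧ ∀ L : ℕ,
    ∑ l ∈ Finset.range L, (2 * (l : ℝ) + 5) * Real.exp (-((l : ℝ) / 4)) ≤ C := by
  have hr0 : 0 < Real.exp (-(1 / 8 : ℝ)) := Real.exp_pos _
  have hr1 : Real.exp (-(1 / 8 : ℝ)) < 1 := by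
    rw [← Real.exp_zero]
    exact Real.exp_lt_exp.2 (by norm_num)
  refine ⟨21 * (1 - Real.exp (-(1 / 8 : ℝ)))⁻¹,
    mul_pos (by norm_num) (inv_pos.2 (by linarith)), fun L => ?_⟩
  have h1 : ∀ l ∈ Finset.range L, (2 * (l : ℝ) + 5) * Real.exp (-((l : ℝ) / 4)) ≤
      21 * Real.exp (-(1 / 8 : ℝ)) ^ l := by
    intro l _
    have hl : (0 : ℝ) ≤ l := Nat.cast_nonneg l
    have h2 : (l : ℝ) / 8 + 1 ≤ Real.exp ((l : ℝ) / 8) := Real.add_one_le_exp _
    have h3 : 2 * (l : ℝ) + 5 ≤ 21 * Real.exp ((l : ℝ) / 8) := by linarith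
    have h4 : Real.exp (-(1 / 8 : ℝ)) ^ l =
        Real.exp ((l : ℝ) / 8) * Real.exp (-((l : ℝ) / 4)) := by
      rw [← Real.exp_add, ← Real.exp_nat_mul]
      congr 1
      ring
    rw [h4]
    calc (2 * (l : ℝ) + 5) * Real.exp (-((l : ℝ) / 4))
        ≤ (21 * Real.exp ((l : ℝ) / 8)) * Real.exp (-((l : ℝ) / 4)) :=
          mul_le_mul_of_nonneg_right h3 (Real.exp_pos _).le
      _ = 21 * (Real.exp ((l : ℝ) / 8) * Real.exp (-((l : ℝ) / 4))) := by ring
  refine (Finset.sum_le_sum h1).trans ?_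
  rw [← Finset.mul_sum]
  refine mul_le_mul_of_nonneg_left ?_ (by norm_num)
  rw [← tsum_geometric_of_lt_one hr0.le hr1]
  exact (summable_geometric_of_lt_one hr0.le hr1).sum_le_tsum _
    (fun i _ => pow_nonneg hr0.le i)

private theorem fact_lower (l : ℕ) : 120 * 2 ^ l ≤ (2 * (l + 2) + 1).factorial := by
  induction l with
  | zero => decide
  | succ l ih =>
    have h1 : 2 * (l + 1 + 2) + 1 = (2 * (l + 2) + 1) + 1 + 1 := by ring
    rw [h1, Nat.factorial_succ, Nat.factorial_succ, pow_succ]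
    have h2 : 1 ≤ 2 * (l + 2) + 1 + 1 := by omega
    have h3 : 2 ≤ 2 * (l + 2) + 1 + 1 + 1 := by omega
    calc 120 * (2 ^ l * 2) = 2 * (1 * (120 * 2 ^ l)) := by ring
      _ ≤ _ := Nat.mul_le_mul h3 (Nat.mul_le_mul h2 ih)

/-- `∑_l 8 / (2 (l + 2) + 1)! ≤ 1 / 2`.

Proof. `(2 l + 5)! ≥ 120 * 6 ^ (2 l)`, so the sum is at most `(8 / 120) (1 + 1 / 36 + …)`. -/
theorem sum_fact (L : ℕ) :
    ∑ l ∈ Finset.range L, (8 : ℝ) / (2 * (l + 2) + 1).factorial ≤ 1 / 2 := by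
  have h1 : ∀ l ∈ Finset.range L, (8 : ℝ) / (2 * (l + 2) + 1).factorial ≤
      (1 / 15) * (1 / 2 : ℝ) ^ l := by
    intro l _
    have h2 : (120 * 2 ^ l : ℝ) ≤ ((2 * (l + 2) + 1).factorial : ℝ) := by
      exact_mod_cast fact_lower l
    have h3 : (0 : ℝ) < 120 * 2 ^ l := by positivity
    calc (8 : ℝ) / (2 * (l + 2) + 1).factorial ≤ 8 / (120 * 2 ^ l) :=
          div_le_div_of_nonneg_left (by norm_num) h3 h2
      _ = (1 / 15) * (1 / 2 : ℝ) ^ l := by
          rw [one_div_pow]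
          field_simp
          norm_num
  refine (Finset.sum_le_sum h1).trans ?_
  rw [← Finset.mul_sum]
  have h4 : ∑ l ∈ Finset.range L, (1 / 2 : ℝ) ^ l ≤ 2 := by
    calc ∑ l ∈ Finset.range L, (1 / 2 : ℝ) ^ l ≤ ∑' n : ℕ, (1 / 2 : ℝ) ^ n :=
          summable_geometric_two.sum_le_tsum _ (fun i _ => by positivity)
      _ = 2 := tsum_geometric_two
  linarith

/-- `(1 + log y) ^ 2 ≤ 4 y` for `y ≥ 1`, and powers of `1 + log z` are small.

Proof. `1 + log z = 1 + 2 a log (z ^ (1 / (2 a)))` and `log x ≤ x - 1`. -/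
theorem log_sq_le (y : ℝ) (hy : 1 ≤ y) : (1 + Real.log y) ^ 2 ≤ 4 * y := by
  have hy0 : 0 < y := by linarith
  have h1 : Real.log (Real.sqrt y) ≤ Real.sqrt y - 1 :=
    Real.log_le_sub_one_of_pos (Real.sqrt_pos.2 hy0)
  rw [Real.log_sqrt hy0.le] at h1
  have h2 : 0 ≤ Real.log y := Real.log_nonneg hy
  have h3 : Real.sqrt y ^ 2 = y := Real.sq_sqrt hy0.le
  have h4 : 1 + Real.log y ≤ 2 * Real.sqrt y := by linarith
  calc (1 + Real.log y) ^ 2 ≤ (2 * Real.sqrt y) ^ 2 :=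
        pow_le_pow_left₀ (by linarith) h4 2
    _ = 4 * y := by
        rw [mul_pow, h3]
        norm_num

/-- Proof. `exp (C (1 + log (1 + log z))) = e ^ C (1 + log z) ^ C`; put `a = max C 1`; then
`1 + log z ≤ 2 a z ^ (1 / (2 a))`. -/
theorem exp_log_le (C : ℝ) (hC : 0 < C) : ∃ K : ℕ, 1 ≤ K ∧ ∀ z : ℝ, 1 ≤ z →
    Real.exp (C * (1 + Real.log (1 + Real.log z))) ≤ K * Real.sqrt z := by
  obtain ⟨a, ha1, haC⟩ : ∃ a : ℝ, 1 ≤ a ∧ C ≤ a := ⟨max C 1, le_max_right _ _, le_max_left _ _⟩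
  have ha0 : 0 < a := by linarith
  refine ⟨⌈Real.exp (a + a * Real.log (2 * a))⌉₊, Nat.ceil_pos.2 (Real.exp_pos _),
    fun z hz => ?_⟩
  have hz0 : 0 < z := by linarith
  have hlz : 0 ≤ Real.log z := Real.log_nonneg hz
  have ht1 : 1 ≤ 1 + Real.log z := by linarith
  have hlt : 0 ≤ Real.log (1 + Real.log z) := Real.log_nonneg ht1
  obtain ⟨s, hs⟩ : ∃ s : ℝ, s = Real.log z / (2 * a) := ⟨_, rfl⟩
  have hs1 : 2 * a * s = Real.log z := by
    rw [hs]
    field_simp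
  have h1 : 1 + Real.log z ≤ 2 * a * Real.exp s := by
    have h2 := Real.add_one_le_exp s
    have h3 : 2 * a * (s + 1) ≤ 2 * a * Real.exp s :=
      mul_le_mul_of_nonneg_left h2 (by linarith)
    linarith
  have h2 : Real.log (1 + Real.log z) ≤ Real.log (2 * a) + s := by
    have h3 := Real.log_le_log (by linarith) h1
    rwa [Real.log_mul (by linarith) (Real.exp_pos _).ne', Real.log_exp] at h3
  have h3 : C * (1 + Real.log (1 + Real.log z)) ≤
      (a + a * Real.log (2 * a)) + Real.log (Real.sqrt z) := by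
    rw [Real.log_sqrt hz0.le]
    calc C * (1 + Real.log (1 + Real.log z)) ≤ a * (1 + Real.log (1 + Real.log z)) :=
          mul_le_mul_of_nonneg_right haC (by linarith)
      _ ≤ a * (1 + (Real.log (2 * a) + s)) :=
          mul_le_mul_of_nonneg_left (by linarith) ha0.le
      _ = (a + a * Real.log (2 * a)) + (2 * a * s) / 2 := by ring
      _ = _ := by rw [hs1]
  calc Real.exp (C * (1 + Real.log (1 + Real.log z)))
      ≤ Real.exp ((a + a * Real.log (2 * a)) + Real.log (Real.sqrt z)) :=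
        Real.exp_le_exp.2 h3
    _ = Real.exp (a + a * Real.log (2 * a)) * Real.sqrt z := by
        rw [Real.exp_add, Real.exp_log (Real.sqrt_pos.2 hz0)]
    _ ≤ _ := mul_le_mul_of_nonneg_right (Nat.le_ceil _) (Real.sqrt_nonneg z)

end Pool.Agent.C497
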