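import Pool.Agent.Lib.MP_c497bd_nt.PJ.Low
import Pool.Agent.Lib.MP_c497bd_nt.PJ.Err
import Pool.Agent.Lib.MP_c497bd_nt.PJ.Cls
import Pool.Agent.Lib.MP_c497bd_nt.PJ.Sums

/-!
# MP_c497bd, polynomial Jacobsthal bound: the sieve with its main term
-/

namespace Pool.Agent.C497

open MP6cc1fa

/-- Proof. Take `cls`, `L` from `exists_classes` and `b l = l + 2`. Main term: by `lam_main`
(SM5.lean, with `g q = wt r s q / q ≤ 2 / q ≤ 1 / 2`) and `sum_fact`
`∑_D lamM D ∏ g ≥ (1 / 2) ∑_D lamP D ∏ g`, and `sm5_sumP`, `sm5Y_ge` (SM5.lean) give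
`∑_D lamP D ∏ g ≥ (1 / 8) ^ L`, with `L ≤ C₁ (1 + log (1 + log z))`. Error term: by `err_bound` it
is at most `exp (∑_{l < L} (2 l + 5) (1 + C₁ exp (-l / 4) (1 + log z)))`; here
`∑_{l < L} (2 l + 5) = L ^ 2 + 4 L` is at most a constant times `1 + log z` by `log_sq_le` with
`y = 1 + log z`, and the rest is bounded by `sum_decay`. Then `sieve_lower`. -/
theorem sieve_main : ∃ C : ℝ, 0 < C ∧ ∀ (z : ℕ) (S : Finset ℕ) (r s : ℕ → ℤ) (N : ℕ), 2 ≤ z →
    (∀ q ∈ S, q.Prime ∧ 5 ≤ q ∧ q ≤ z) →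
    N * Real.exp (-(C * (1 + Real.log (1 + Real.log z)))) - Real.exp (C * (1 + Real.log z)) ≤
      ((free r s S N).card : ℝ) := by
  obtain ⟨C₁, hC₁, hcl⟩ := exists_classes
  obtain ⟨C₂, hC₂, hdec⟩ := sum_decay
  refine ⟨1 + 3 * C₁ + (4 * C₁ ^ 2 + 16 * C₁ + C₁ * C₂), by positivity,
    fun z S r s N hz hS => ?_⟩
  obtain ⟨cls, L, hc, hsum, hlog, hL⟩ := hcl z S hz hS
  have hz1 : (1 : ℝ) ≤ z := by exact_mod_cast (by omega : 1 ≤ z)
  have hlz : 0 ≤ Real.log z := Real.log_nonneg hz1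
  obtain ⟨y, hy⟩ : ∃ y : ℝ, y = 1 + Real.log z := ⟨_, rfl⟩
  rw [← hy] at hL ⊢
  have hy1 : 1 ≤ y := by linarith
  have hly : 0 ≤ Real.log y := Real.log_nonneg hy1
  obtain ⟨u, hu⟩ : ∃ u : ℝ, u = 1 + Real.log y := ⟨_, rfl⟩
  have hu4 := log_sq_le y hy1
  rw [← hu] at hL hu4 ⊢
  have hu1 : 1 ≤ u := by linarith
  have huu : u ≤ u ^ 2 := by nlinarith
  have hL0 : (0 : ℝ) ≤ L := Nat.cast_nonneg L
  set b : ℕ → ℕ := fun l => l + 2 with hb
  set g : ℕ → ℝ := fun q => wt r s q / q with hg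
  have hg0 : ∀ q ∈ S, 0 ≤ g q := fun q _ => div_nonneg (wt_nonneg r s q) (Nat.cast_nonneg q)
  have hg2 : ∀ q ∈ S, g q ≤ 2 / q := fun q _ =>
    div_le_div_of_nonneg_right (wt_le r s q) (Nat.cast_nonneg q)
  have hg1 : ∀ q ∈ S, g q ≤ 1 / 2 := by
    intro q hq
    have h5 : (5 : ℝ) ≤ q := by exact_mod_cast (hS q hq).2.1
    refine (hg2 q hq).trans ?_
    rw [div_le_div_iff₀ (by linarith) (by norm_num)]
    linarith
  have hgs : ∀ l < L, ∑ q ∈ part cls S l, g q ≤ 1 := by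
    intro l hl
    refine (Finset.sum_le_sum fun q hq => ?_).trans (hsum l hl)
    exact hg2 q (sm5_mem_part.1 hq).1
  -- the main term
  obtain ⟨hm0, hm⟩ := lam_main cls b L S hc g hg0 hg1 hgs
  have hm1 : ((1 : ℝ) / 8) ^ L ≤ ∑ D ∈ S.powerset, lamP cls b L D * ∏ P ∈ D, g P := by
    rw [sm5_sumP cls b L g S hc]
    calc ((1 : ℝ) / 8) ^ L = ∏ _j ∈ Finset.range L, (1 : ℝ) / 8 := by
          rw [Finset.prod_const, Finset.card_range]
      _ ≤ _ := by
          refine Finset.prod_le_prod (fun _ _ => by norm_num) fun j hj => ?_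
          refine sm5Y_ge g _ (fun P hP => hg0 P (sm5_mem_part.1 hP).1)
            (fun P hP => hg1 P (sm5_mem_part.1 hP).1) (hgs j (Finset.mem_range.1 hj)) (b j)
  have hf := sum_fact L
  have hmain : Real.exp (-((1 + 3 * C₁) * u)) ≤
      ∑ D ∈ S.powerset, lamM cls b L D * ∏ P ∈ D, g P := by
    refine le_trans ?_ hm
    have h1 : (1 : ℝ) / 2 * ((1 : ℝ) / 8) ^ L ≤
        (1 - ∑ l ∈ Finset.range L, (8 : ℝ) / (2 * b l + 1).factorial) *
          ∑ D ∈ S.powerset, lamP cls b L D * ∏ P ∈ D, g P := by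
      refine mul_le_mul ?_ hm1 (by positivity) ?_
      · simp only [hb]
        linarith
      · simp only [hb]
        linarith
    refine le_trans ?_ h1
    have h2 : Real.exp (-1) ≤ 1 / 2 := by
      rw [Real.exp_neg, one_div]
      refine inv_anti₀ (by norm_num) ?_
      have := Real.add_one_le_exp (1 : ℝ)
      linarith
    have h3 : Real.exp (-3) ≤ 1 / 8 := by
      have h4 : Real.exp (-3) = Real.exp (-1) ^ 3 := by
        rw [← Real.exp_nat_mul]
        norm_num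
      rw [h4]
      calc Real.exp (-1) ^ 3 ≤ (1 / 2) ^ 3 := pow_le_pow_left₀ (Real.exp_pos _).le h2 3
        _ = 1 / 8 := by norm_num
    have h4 : Real.exp (-((1 + 3 * C₁) * u)) ≤ Real.exp (-1) * Real.exp (-3) ^ L := by
      rw [← Real.exp_nat_mul, ← Real.exp_add]
      refine Real.exp_le_exp.2 ?_
      nlinarith
    refine h4.trans ?_
    exact mul_le_mul h2 (pow_le_pow_left₀ (Real.exp_pos _).le h3 L)
      (pow_nonneg (Real.exp_pos _).le L) (by norm_num)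
  -- the error term
  have herr : ∑ D ∈ S.powerset, |lamM cls b L D| * 2 ^ D.card ≤
      Real.exp ((4 * C₁ ^ 2 + 16 * C₁ + C₁ * C₂) * y) := by
    refine (err_bound S cls b L hc).trans ?_
    have h1 : ∀ l ∈ Finset.range L, (1 + 2 * ((part cls S l).card : ℝ)) ^ (2 * b l + 1) =
        Real.exp ((2 * (l : ℝ) + 5) * Real.log (1 + 2 * ((part cls S l).card : ℝ))) := by
      intro l _
      have hp : (0 : ℝ) < 1 + 2 * ((part cls S l).card : ℝ) := by positivity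
      have h2 : (2 * (l : ℝ) + 5) = ((2 * b l + 1 : ℕ) : ℝ) := by
        simp only [hb]
        push_cast
        ring
      rw [h2, Real.exp_nat_mul, Real.exp_log hp]
    rw [Finset.prod_congr rfl h1, ← Real.exp_sum]
    refine Real.exp_le_exp.2 ?_
    have h2 : ∀ l ∈ Finset.range L,
        (2 * (l : ℝ) + 5) * Real.log (1 + 2 * ((part cls S l).card : ℝ)) ≤
        (2 * (l : ℝ) + 5) + C₁ * y * ((2 * (l : ℝ) + 5) * Real.exp (-((l : ℝ) / 4))) := by
      intro l hl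
      have h3 := hlog l (Finset.mem_range.1 hl)
      rw [← hy] at h3
      have h4 : (0 : ℝ) ≤ 2 * (l : ℝ) + 5 := by positivity
      have h5 := mul_le_mul_of_nonneg_left h3 h4
      refine h5.trans (le_of_eq ?_)
      ring
    refine (Finset.sum_le_sum h2).trans ?_
    rw [Finset.sum_add_distrib, ← Finset.mul_sum]
    have h3 : ∑ l ∈ Finset.range L, (2 * (l : ℝ) + 5) = (L : ℝ) ^ 2 + 4 * L := by
      clear hL hm hm1 hm0 hmain hgs hc hsum hlog hf hL0 h1 h2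
      induction L with
      | zero => simp
      | succ L ih =>
        rw [Finset.sum_range_succ, ih]
        push_cast
        ring
    rw [h3]
    have h4 := hdec L
    have h5 : C₁ * y * ∑ l ∈ Finset.range L, (2 * (l : ℝ) + 5) * Real.exp (-((l : ℝ) / 4)) ≤
        C₁ * y * C₂ := mul_le_mul_of_nonneg_left h4 (by positivity)
    have h6 : (L : ℝ) ^ 2 ≤ C₁ ^ 2 * (4 * y) := by
      calc (L : ℝ) ^ 2 ≤ (C₁ * u) ^ 2 := pow_le_pow_left₀ hL0 hL 2
        _ = C₁ ^ 2 * u ^ 2 := by ring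
        _ ≤ _ := mul_le_mul_of_nonneg_left hu4 (by positivity)
    have h7 : (L : ℝ) ≤ C₁ * (4 * y) := hL.trans
      (mul_le_mul_of_nonneg_left (huu.trans hu4) hC₁.le)
    nlinarith
  -- conclusion
  have hfin := sieve_lower r s N S (fun q hq => (hS q hq).1) cls b L hc
  have h1 : (N : ℝ) * Real.exp (-((1 + 3 * C₁ + (4 * C₁ ^ 2 + 16 * C₁ + C₁ * C₂)) * u)) ≤
      N * ∑ D ∈ S.powerset, lamM cls b L D * ∏ P ∈ D, g P := by
    refine mul_le_mul_of_nonneg_left (le_trans (Real.exp_le_exp.2 ?_) hmain) (Nat.cast_nonneg N)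
    have h2 : 0 ≤ (4 * C₁ ^ 2 + 16 * C₁ + C₁ * C₂) * u := by positivity
    linarith
  have h2 : Real.exp ((4 * C₁ ^ 2 + 16 * C₁ + C₁ * C₂) * y) ≤
      Real.exp ((1 + 3 * C₁ + (4 * C₁ ^ 2 + 16 * C₁ + C₁ * C₂)) * y) := by
    refine Real.exp_le_exp.2 ?_
    have h3 : 0 ≤ (1 + 3 * C₁) * y := by positivity
    linarith
  have h3 : (N : ℝ) * ∑ D ∈ S.powerset, lamM cls b L D * ∏ P ∈ D, g P -
      ∑ D ∈ S.powerset, |lamM cls b L D| * 2 ^ D.card ≤ ((free r s S N).card : ℝ) := hfin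
  linarith

end Pool.Agent.C497
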