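import Pool.Agent.Lib.MP_c497bd_nt.PJ.Main
import Pool.Agent.Lib.MP_c497bd_nt.PJ.Cnt

/-!
# MP_c497bd, polynomial Jacobsthal bound without the primes `2` and `3`
-/

namespace Pool.Agent.C497

private theorem pf_pow (K W c : ℕ) (hW : 2 ≤ W) :
    32 * K ^ 2 * W * ((192 * K ^ 2 * W ^ 2) ^ c + 2 * W) ≤
      W ^ (192 * K ^ 2 + 1 + ((192 * K ^ 2 + 2) * c + 3)) := by
  have h0 : 1 ≤ W := by omega
  have ha : 192 * K ^ 2 ≤ W ^ (192 * K ^ 2) :=
    (Nat.lt_two_pow_self).le.trans (Nat.pow_le_pow_left hW _)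
  have h1 : 192 * K ^ 2 * W ^ 2 ≤ W ^ (192 * K ^ 2 + 2) := by
    rw [pow_add]
    exact Nat.mul_le_mul_right _ ha
  have h2 : (192 * K ^ 2 * W ^ 2) ^ c ≤ W ^ ((192 * K ^ 2 + 2) * c + 2) := by
    refine (Nat.pow_le_pow_left h1 c).trans ?_
    rw [← pow_mul]
    exact Nat.pow_le_pow_right h0 (by omega)
  have h3 : 2 * W ≤ W ^ ((192 * K ^ 2 + 2) * c + 2) := by
    refine le_trans ?_ (Nat.pow_le_pow_right h0 (show 2 ≤ (192 * K ^ 2 + 2) * c + 2 by omega))
    rw [pow_two]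
    exact Nat.mul_le_mul_right _ hW
  have h4 : (192 * K ^ 2 * W ^ 2) ^ c + 2 * W ≤ W ^ ((192 * K ^ 2 + 2) * c + 3) := by
    have e : W ^ ((192 * K ^ 2 + 2) * c + 3) = W ^ ((192 * K ^ 2 + 2) * c + 2) * W :=
      pow_succ _ _
    rw [e]
    have := Nat.mul_le_mul_left (W ^ ((192 * K ^ 2 + 2) * c + 2)) hW
    omega
  have h5 : 32 * K ^ 2 * W ≤ W ^ (192 * K ^ 2 + 1) := by
    rw [pow_succ]
    exact Nat.mul_le_mul_right _ (le_trans (Nat.mul_le_mul_right _ (by norm_num)) ha)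
  rw [pow_add]
  exact Nat.mul_le_mul h5 h4

private theorem pf_exp {C : ℝ} {c z : ℕ} (hc : C ≤ c) (hz : 1 ≤ z) :
    Real.exp (C * (1 + Real.log z)) ≤ (3 * z) ^ c := by
  have h1 : (1 : ℝ) ≤ z := by exact_mod_cast hz
  have h2 : 0 ≤ Real.log z := Real.log_nonneg h1
  have h3 : C * (1 + Real.log z) ≤ c * (1 + Real.log z) :=
    mul_le_mul_of_nonneg_right hc (by linarith)
  refine (Real.exp_le_exp.2 h3).trans ?_
  rw [Real.exp_nat_mul, Real.exp_add, Real.exp_log (by linarith)]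
  refine pow_le_pow_left₀ (by positivity) ?_ c
  have := Real.exp_one_lt_d9
  exact mul_le_mul_of_nonneg_right (by linarith) (by linarith)

/-- The case without the primes `2` and `3`.

Proof. Let `w = |S|`, `C` the constant of `sieve_main`, `K` the one of `exp_log_le` (Sums.lean), and
`z = 64 K ^ 2 (w + 2) ^ 2`, so `√z = 8 K (w + 2)`. Let `S₁` be the set of the `q ∈ S` with `q ≤ z`,
and `S₂` the others. The number of the `i < N` hit by some `q ∈ S₂` is at most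
`∑_{q ∈ S₂} (2 N / q + 2) ≤ 2 w N / z + 2 w` (`hit_count` with `D = {q}`). By `sieve_main` the
number of the `i < N` not hit by `S₁` is at least `N / (K √z) - exp (C (1 + log z))`. As
`2 w / z ≤ 1 / (2 K √z)`, it suffices that `N / (2 K √z) > exp (C (1 + log z)) + 2 w`; the right
side is at most a constant times `(w + 2) ^ (2 C + 1)`, so `N ≥ (w + 2) ^ A` is enough if `A` is a
large constant (`2 ^ (A - A') ≤ (w + 2) ^ (A - A')`). -/
theorem poly_five : ∃ A : ℕ, ∀ (S : Finset ℕ) (r s : ℕ → ℤ) (N : ℕ),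
    (∀ q ∈ S, q.Prime ∧ 5 ≤ q) → (S.card + 2) ^ A ≤ N →
    ∃ i : ℕ, i < N ∧ ∀ q ∈ S, ¬ Hit r s q i := by
  classical
  obtain ⟨C, hC, hmain⟩ := sieve_main
  obtain ⟨K, hK1, hK⟩ := exp_log_le C hC
  obtain ⟨c, hc⟩ := exists_nat_ge C
  refine ⟨192 * K ^ 2 + 1 + ((192 * K ^ 2 + 2) * c + 3), fun S r s N hS hN => ?_⟩
  obtain ⟨W, hW⟩ : ∃ W : ℕ, W = S.card + 2 := ⟨_, rfl⟩
  have hW2 : 2 ≤ W := by omega
  rw [← hW] at hN
  have hpow := (pf_pow K W c hW2).trans hN
  obtain ⟨z, hz⟩ : ∃ z : ℕ, z = 64 * K ^ 2 * W ^ 2 := ⟨_, rfl⟩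
  have hKW : 1 ≤ K ^ 2 * W ^ 2 := Nat.one_le_iff_ne_zero.2 (by positivity)
  have hz2 : 2 ≤ z := by
    rw [hz, mul_assoc]
    omega
  by_contra hcon
  push Not at hcon
  have hfree : free r s (S.filter fun q => q ≤ z) N ⊆
      (S.filter fun q => z < q).biUnion fun q => hitAll r s {q} N := by
    intro i hi
    obtain ⟨hi1, hi2⟩ := Finset.mem_filter.1 hi
    obtain ⟨q, hq, hh⟩ := hcon i (Finset.mem_range.1 hi1)
    rcases Nat.lt_or_ge z q with h | h
    · refine Finset.mem_biUnion.2 ⟨q, Finset.mem_filter.2 ⟨hq, h⟩, Finset.mem_filter.2 ⟨hi1, ?_⟩⟩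
      intro p hp
      rw [Finset.mem_singleton.1 hp]
      exact hh
    · exact absurd hh (hi2 q (Finset.mem_filter.2 ⟨hq, h⟩))
  have hz0 : (0 : ℝ) < z := by exact_mod_cast (show 0 < z by omega)
  have hb : ∀ q ∈ S.filter fun q => z < q,
      ((hitAll r s {q} N).card : ℝ) ≤ 2 * N / z + 2 := by
    intro q hq
    obtain ⟨hqS, hzq⟩ := Finset.mem_filter.1 hq
    have h1 := hit_count r s N {q} (by
      intro p hp
      rw [Finset.mem_singleton.1 hp]
      exact (hS q hqS).1)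
    rw [Finset.prod_singleton, Finset.card_singleton, pow_one] at h1
    have h2 := (abs_le.1 h1).2
    have hzq' : (z : ℝ) ≤ q := by exact_mod_cast hzq.le
    have h3 : wt r s q / q ≤ 2 / z := div_le_div₀ (by norm_num) (wt_le r s q) hz0 hzq'
    have h4 := mul_le_mul_of_nonneg_left h3 (Nat.cast_nonneg (α := ℝ) N)
    have h5 : (N : ℝ) * (2 / z) = 2 * N / z := by ring
    linarith
  have hcard : ((free r s (S.filter fun q => q ≤ z) N).card : ℝ) ≤ S.card * (2 * N / z + 2) := by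
    have h1 := (Finset.card_le_card hfree).trans Finset.card_biUnion_le
    have h2 : ((free r s (S.filter fun q => q ≤ z) N).card : ℝ) ≤
        ∑ q ∈ S.filter fun q => z < q, ((hitAll r s {q} N).card : ℝ) := by exact_mod_cast h1
    refine h2.trans ((Finset.sum_le_sum hb).trans ?_)
    rw [Finset.sum_const, nsmul_eq_mul]
    have h3 : ((S.filter fun q => z < q).card : ℝ) ≤ S.card := by
      exact_mod_cast Finset.card_filter_le _ _
    exact mul_le_mul_of_nonneg_right h3 (by positivity)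
  have hm := hmain z (S.filter fun q => q ≤ z) r s N hz2 (by
    intro q hq
    obtain ⟨h1, h2⟩ := Finset.mem_filter.1 hq
    exact ⟨(hS q h1).1, (hS q h1).2, h2⟩)
  have hx := pf_exp hc (show 1 ≤ z by omega)
  have hk1 : (1 : ℝ) ≤ K := by exact_mod_cast hK1
  have hw2 : (2 : ℝ) ≤ W := by exact_mod_cast hW2
  have hzr : (z : ℝ) = (8 * K * W) ^ 2 := by
    rw [hz]
    push_cast
    ring
  have hsq : Real.sqrt z = 8 * K * W := by
    rw [hzr, Real.sqrt_sq (by positivity)]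
  have he := hK z (by exact_mod_cast (show 1 ≤ z by omega))
  rw [hsq] at he
  have he2 : 1 / (8 * (K : ℝ) ^ 2 * W) ≤ Real.exp (-(C * (1 + Real.log (1 + Real.log z)))) := by
    rw [Real.exp_neg, one_div]
    refine inv_anti₀ (Real.exp_pos _) (he.trans (le_of_eq (by ring)))
  have he3 := mul_le_mul_of_nonneg_left he2 (Nat.cast_nonneg (α := ℝ) N)
  have hSW : (S.card : ℝ) ≤ W := by exact_mod_cast (show S.card ≤ W by omega)
  have h6 : (S.card : ℝ) * (2 * N / z + 2) ≤ W * (2 * N / z + 2) :=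
    mul_le_mul_of_nonneg_right hSW (by positivity)
  have h7 : (N : ℝ) * (1 / (8 * (K : ℝ) ^ 2 * W)) ≤ W * (2 * N / z + 2) + (3 * z) ^ c := by
    linarith
  have hpos : (0 : ℝ) < 32 * K ^ 2 * W := by positivity
  have h8 := mul_le_mul_of_nonneg_left h7 hpos.le
  have e1 : 32 * (K : ℝ) ^ 2 * W * (N * (1 / (8 * (K : ℝ) ^ 2 * W))) = 4 * N := by
    field_simp
    ring
  have e2 : 32 * (K : ℝ) ^ 2 * W * (W * (2 * N / z + 2) + (3 * z) ^ c) =
      N + 32 * K ^ 2 * W * ((3 * z) ^ c + 2 * W) := by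
    rw [hzr]
    field_simp
    ring
  rw [e1, e2] at h8
  have h9 : (32 : ℝ) * K ^ 2 * W * ((3 * z) ^ c + 2 * W) ≤ N := by
    have h10 : ((32 * K ^ 2 * W * ((192 * K ^ 2 * W ^ 2) ^ c + 2 * W) : ℕ) : ℝ) ≤ N := by
      exact_mod_cast hpow
    have e3 : (3 * (z : ℝ)) = 192 * K ^ 2 * W ^ 2 := by
      rw [hzr]
      ring
    rw [e3]
    push_cast at h10
    exact h10
  have hN1 : (1 : ℝ) ≤ N := by
    have : 1 ≤ W ^ (192 * K ^ 2 + 1 + ((192 * K ^ 2 + 2) * c + 3)) :=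
      Nat.one_le_pow _ _ (by omega)
    exact_mod_cast this.trans hN
  linarith

end Pool.Agent.C497
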